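import Pool.Agent.Helper97_WHC.Stmt
import Pool.Agent.Helper64_DEN.Rootd

/-!
# Squad WHC, row WEY: the Weyl group
-/

set_option autoImplicit false

open scoped BigOperators

namespace Pool.Agent.WHC.H6

open Pool.Agent.DEN Pool.Agent.TMP Pool.Agent.WHT Pool.Agent.WHC

section
variable {r : ℕ} {C : Matrix (Fin r) (Fin r) ℤ} (hC : SimplyLaced C)

theorem sE_apply (i : Fin r) (μ : Fin r → ℤ) : sE hC i μ = μ - ip C μ (al i) • al i := rfl

theorem mul_app (v w : LA r) (x : Fin r → ℤ) : (v * w) x = v (w x) := rfl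

theorem one_app (x : Fin r → ℤ) : (1 : LA r) x = x := rfl

theorem inv_app (w : LA r) (x : Fin r → ℤ) : w (w⁻¹ x) = x := by
  rw [← mul_app, mul_inv_cancel, one_app]

theorem app_inv (w : LA r) (x : Fin r → ℤ) : w⁻¹ (w x) = x := by
  rw [← mul_app, inv_mul_cancel, one_app]

theorem iso {w : LA r} (hw : w ∈ Wg hC) : ∀ x y, ip C (w x) (w y) = ip C x y := by
  induction hw using Subgroup.closure_induction with
  | mem s hs =>
    obtain ⟨i, rfl⟩ := hs
    exact ip_sref hC i
  | one => exact fun _ _ => rfl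
  | mul a b _ _ ha hb =>
    intro x y
    rw [mul_app, mul_app, ha, hb]
  | inv a _ ha =>
    intro x y
    have h := ha (a⁻¹ x) (a⁻¹ y)
    rw [inv_app, inv_app] at h
    exact h.symm

theorem eq_of_al {e f : LA r} (h : ∀ i, e (al i) = f (al i)) : e = f := by
  apply LinearEquiv.ext
  intro x
  have hx : x = ∑ i, x i • al i := by
    funext j
    simp [al, Finset.sum_apply, Pi.single_apply]
  rw [hx, map_sum, map_sum]
  refine Finset.sum_congr rfl fun i _ => ?_
  rw [map_zsmul, map_zsmul, h i]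

theorem Wg_finite : Finite (Wg hC) := by
  classical
  have hR : Finite (Rt C) := Pool.Agent.DEN.H59.rootFin r C hC
  let F : Wg hC → (Rt C → Rt C) := fun g β => ⟨g.1 β.1, by rw [iso hC g.2, β.2]⟩
  refine Finite.of_injective F ?_
  intro g g' h
  apply Subtype.ext
  apply eq_of_al
  intro i
  have h2 := congrFun h (hC.sr i)
  exact congrArg Subtype.val h2

/-- the pairing as an additive map -/
def ipR (C : Matrix (Fin r) (Fin r) ℤ) (x : Fin r → ℤ) : (Fin r → ℤ) →+ ℤ where
  toFun y := ip C x y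
  map_zero' := ip_zero_right C x
  map_add' := ip_add_right C x

include hC in
theorem ip_tr (i : Fin r) : ip C (al i) (tr C) = 2 := by
  have hR : Finite (Rt C) := Pool.Agent.DEN.H59.rootFin r C hC
  have hD := (H64.rootd H59.rootSign H59.rootFin r C hC).2.2 i
  have h1 : ip C (al i) (tr C) = ∑ᶠ β : {β : Rt C // β.Pos}, ip C (al i) β.1.1 := by
    show ipR C (al i) (∑ᶠ β : {β : Rt C // β.Pos}, β.1.1) = _
    exact AddMonoidHom.map_finsum (ipR C (al i)) (Set.toFinite _)
  refine h1.trans (Eq.trans ?_ hD)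
  refine finsum_congr fun β => ?_
  exact hC.ip_comm _ _

theorem sE_tr (i : Fin r) : sE hC i (tr C) = tr C - (2 : ℤ) • al i := by
  rw [sE_apply, hC.ip_comm, ip_tr hC]

theorem ex_dl {w : LA r} (hw : w ∈ Wg hC) : ∃ δ : Fin r → ℤ, tr C - w (tr C) = (2 : ℤ) • δ := by
  induction hw using Subgroup.closure_induction with
  | mem s hs =>
    obtain ⟨i, rfl⟩ := hs
    exact ⟨al i, by rw [sE_tr]; abel⟩
  | one => exact ⟨0, by rw [one_app, sub_self, smul_zero]⟩
  | mul a b _ _ ha hb =>
    obtain ⟨δ, hδ⟩ := ha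
    obtain ⟨ε, hε⟩ := hb
    refine ⟨δ + a ε, ?_⟩
    rw [mul_app, smul_add, ← hδ, ← map_zsmul a, ← hε, map_sub]
    abel
  | inv a _ ha =>
    obtain ⟨δ, hδ⟩ := ha
    refine ⟨-a⁻¹ δ, ?_⟩
    rw [smul_neg, ← map_zsmul a⁻¹, ← hδ, map_sub, app_inv]
    abel

theorem two_inj {x y : Fin r → ℤ} (h : (2 : ℤ) • x = (2 : ℤ) • y) : x = y := by
  funext i
  have := congrFun h i
  simp only [Pi.smul_apply, smul_eq_mul] at this
  omega

theorem dl_eq {w : LA r} {δ : Fin r → ℤ} (h : tr C - w (tr C) = (2 : ℤ) • δ) : dl C w = δ := by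
  funext i
  have h1 := congrFun h i
  simp only [Pi.sub_apply, Pi.smul_apply, smul_eq_mul] at h1
  unfold dl
  omega

theorem two_dl {w : LA r} (hw : w ∈ Wg hC) : (2 : ℤ) • dl C w = tr C - w (tr C) := by
  obtain ⟨δ, hδ⟩ := ex_dl hC hw
  rw [dl_eq hδ, hδ]

theorem sg_unit (w : LA r) : sg w = 1 ∨ sg w = -1 := by
  have h : IsUnit (sg w) := LinearEquiv.isUnit_det' w
  exact Int.isUnit_iff.1 h

theorem sg_mul (v w : LA r) : sg (v * w) = sg v * sg w := by
  unfold sg
  rw [← LinearMap.det_comp]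
  rfl

theorem sg_sE (i : Fin r) : sg (sE hC i) = -1 := by
  unfold sg
  rw [← LinearMap.det_toMatrix']
  let A : Matrix (Fin r) (Fin 1) ℤ := fun a _ => al i a
  let B : Matrix (Fin 1) (Fin r) ℤ := fun _ b => C b i
  have hM : LinearMap.toMatrix' ((sE hC i : LA r) : (Fin r → ℤ) →ₗ[ℤ] (Fin r → ℤ)) = 1 - A * B := by
    ext a b
    rw [LinearMap.toMatrix'_apply]
    have h1 : ((sE hC i : LA r) : (Fin r → ℤ) →ₗ[ℤ] (Fin r → ℤ)) (Pi.single b 1) =
        al b - ip C (al b) (al i) • al i := rfl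
    rw [h1, ip_al_al, Matrix.sub_apply, Matrix.mul_apply, Fin.sum_univ_one, Pi.sub_apply,
      Pi.smul_apply, smul_eq_mul]
    have h2 : (al b : Fin r → ℤ) a = (1 : Matrix (Fin r) (Fin r) ℤ) a b := by
      rw [Matrix.one_apply]
      unfold al
      rw [Pi.single_apply]
    rw [h2]
    show _ - C b i * al i a = _ - al i a * C b i
    ring
  rw [hM, Matrix.det_one_sub_mul_comm, Matrix.det_fin_one, Matrix.sub_apply, Matrix.mul_apply]
  have h3 : ∑ b, B 0 b * A b 0 = 2 := by
    show ∑ b, C b i * al i b = 2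
    unfold al
    rw [Finset.sum_eq_single i]
    · rw [Pi.single_eq_same, mul_one, hC.diag]
    · intro b _ hb
      rw [Pi.single_eq_of_ne hb, mul_zero]
    · intro h
      exact absurd (Finset.mem_univ i) h
  rw [h3, Matrix.one_apply_eq]
  norm_num

theorem wA_mul (v w : LA r) (T : CQ r) : wA (v * w) T = wA v (wA w T) := by
  have h : wA (v * w) = (wA w).trans (wA v) := by
    unfold wA
    rw [AddMonoidAlgebra.trans_domCongr_domCongr]
    rfl
  rw [h]
  rfl

theorem wA_one (T : CQ r) : wA (1 : LA r) T = T := by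
  have h : wA (1 : LA r) = AlgEquiv.refl := by
    unfold wA
    have : (1 : LA r).toAddEquiv = AddEquiv.refl _ := rfl
    rw [this, AddMonoidAlgebra.domCongr_refl]
  rw [h]
  rfl

theorem inv_iff (T : CQ r) : T ∈ invAlg C ↔ ∀ w ∈ Wg hC, wA w T = T := by
  constructor
  · intro hT w hw
    induction hw using Subgroup.closure_induction with
    | mem s hs =>
      obtain ⟨i, rfl⟩ := hs
      have h := hT i
      rw [mapDomain_srefE hC] at h
      exact h
    | one => exact wA_one T
    | mul a b _ _ ha hb => rw [wA_mul, hb, ha]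
    | inv a _ ha =>
      have h : wA a⁻¹ (wA a T) = T := by
        rw [← wA_mul, inv_mul_cancel, wA_one]
      rwa [ha] at h
  · intro h i
    have h1 := h (sE hC i) (Subgroup.subset_closure ⟨i, rfl⟩)
    have h2 : wA (sE hC i) = AddMonoidAlgebra.domCongr ℂ ℂ (srefE hC i) := rfl
    rw [h2, ← mapDomain_srefE hC] at h1
    exact h1

theorem sf_eq (i : Fin r) (l : Fin r → ℤ) : sf C i l = sE hC i l := by
  rw [sE_apply]
  unfold sf
  rw [hC.ip_comm]

include hC in
theorem wr_symm {l m : Fin r → ℤ} (h : WR C l m) : WR C m l := by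
  unfold WR at h ⊢
  induction h with
  | refl => exact Relation.ReflTransGen.refl
  | @tail b c _ hbc ih =>
    obtain ⟨i, rfl⟩ := hbc
    refine Relation.ReflTransGen.head ⟨i, ?_⟩ ih
    rw [sf_eq hC, sf_eq hC]
    exact (sref_sref hC i b).symm

theorem wr_iff (l m : Fin r → ℤ) : WR C l m ↔ ∃ w ∈ Wg hC, m = w l := by
  constructor
  · intro h
    unfold WR at h
    induction h with
    | refl => exact ⟨1, Subgroup.one_mem _, rfl⟩
    | tail _ hbc ih =>
      obtain ⟨w, hw, rfl⟩ := ih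
      obtain ⟨i, rfl⟩ := hbc
      refine ⟨sE hC i * w, Subgroup.mul_mem _ (Subgroup.subset_closure ⟨i, rfl⟩) hw, ?_⟩
      rw [sf_eq hC, mul_app]
  · rintro ⟨w, hw, rfl⟩
    induction hw using Subgroup.closure_induction generalizing l with
    | mem s hs =>
      obtain ⟨i, rfl⟩ := hs
      exact Relation.ReflTransGen.single ⟨i, (sf_eq hC i l).symm⟩
    | one => exact Relation.ReflTransGen.refl
    | mul a b _ _ ha hb =>
      rw [mul_app]
      exact Relation.ReflTransGen.trans (hb l) (ha (b l))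
    | inv a _ ha =>
      have h := ha (a⁻¹ l)
      rw [inv_app] at h
      exact wr_symm hC h

open Polynomial in
theorem ex_gen : ∃ μ₀ : Fin r → ℤ, ∀ w ∈ Wg hC, w μ₀ = μ₀ → w = 1 := by
  classical
  have hfin := Wg_finite hC
  have : Fintype (Wg hC) := Fintype.ofFinite _
  -- the polynomial of `w` and the coordinate `j`
  let p : LA r → Fin r → Polynomial ℤ := fun w j =>
    ∑ k : Fin r, Polynomial.C ((w (al k) - al k) j) * Polynomial.X ^ (k : ℕ)
  have hev : ∀ w j (t : ℤ), (p w j).eval t =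
      (w (fun k : Fin r => t ^ (k : ℕ)) - fun k : Fin r => t ^ (k : ℕ)) j := by
    intro w j t
    have hx : (fun k : Fin r => t ^ (k : ℕ)) = ∑ k : Fin r, t ^ (k : ℕ) • (al k : Fin r → ℤ) := by
      funext a
      simp [al, Finset.sum_apply, Pi.single_apply]
    rw [hx, map_sum, ← Finset.sum_sub_distrib, Finset.sum_apply]
    show Polynomial.eval t (∑ k : Fin r, _) = _
    rw [Polynomial.eval_finsetSum]
    refine Finset.sum_congr rfl fun k _ => ?_
    rw [Polynomial.eval_mul, Polynomial.eval_C, Polynomial.eval_pow, Polynomial.eval_X, map_zsmul,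
      ← smul_sub, Pi.smul_apply, smul_eq_mul, mul_comm]
  have hne : ∀ w : LA r, w ≠ 1 → ∃ j, p w j ≠ 0 := by
    intro w hw
    have h1 : ∃ k, w (al k) ≠ al k := by
      by_contra h
      push Not at h
      exact hw (eq_of_al fun i => h i)
    obtain ⟨k, hk⟩ := h1
    have h2 : ∃ j, (w (al k) - al k) j ≠ 0 := by
      by_contra h
      push Not at h
      exact hk (sub_eq_zero.1 (funext h))
    obtain ⟨j, hj⟩ := h2
    refine ⟨j, fun h0 => hj ?_⟩
    have h3 := congrArg (fun q => Polynomial.coeff q (k : ℕ)) h0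
    simp only [p, Polynomial.finsetSum_coeff, Polynomial.coeff_C_mul, Polynomial.coeff_X_pow,
      Polynomial.coeff_zero] at h3
    rw [Finset.sum_eq_single k] at h3
    · simpa using h3
    · intro b _ hb
      rw [if_neg, mul_zero]
      intro h
      exact hb (Fin.ext h.symm)
    · intro h
      exact absurd (Finset.mem_univ k) h
  choose j hj using hne
  have hne1 : ∀ w : Wg hC, w ≠ 1 → w.1 ≠ 1 := fun w h h' => h (Subtype.ext h')
  let P : Polynomial ℤ := ∏ w : Wg hC, if h : w = 1 then 1 else p w.1 (j w.1 (hne1 w h))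
  have hP : P ≠ 0 := by
    refine Finset.prod_ne_zero_iff.2 fun w _ => ?_
    split_ifs with h
    · exact one_ne_zero
    · exact hj _ _
  have ht : ∃ t : ℤ, P.eval t ≠ 0 := by
    by_contra h
    push Not at h
    exact hP (Polynomial.funext fun t => by rw [h t, Polynomial.eval_zero])
  obtain ⟨t, ht⟩ := ht
  refine ⟨fun k => t ^ (k : ℕ), fun w hw hfix => ?_⟩
  by_contra h1
  apply ht
  show Polynomial.eval t (∏ w : Wg hC, _) = 0
  rw [Polynomial.eval_prod]
  refine Finset.prod_eq_zero (Finset.mem_univ (⟨w, hw⟩ : Wg hC)) ?_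
  rw [dif_neg (fun h => h1 (congrArg Subtype.val h)), hev, hfix, sub_self, Pi.zero_apply]

end

theorem wey : WeyStmt := by
  intro r C hC
  refine ⟨Wg_finite hC, ip_tr hC, fun w hw => ⟨iso hC hw, two_dl hC hw, sg_unit w⟩, ?_, ?_,
    inv_iff hC, wr_iff hC, ex_gen hC⟩
  · intro v hv w hw
    refine ⟨?_, sg_mul v w⟩
    apply two_inj
    rw [two_dl hC (Subgroup.mul_mem _ hv hw), smul_add, two_dl hC hv, ← map_zsmul v, two_dl hC hw,
      map_sub, mul_app]
    abel
  · intro i
    have hi : sE hC i ∈ Wg hC := Subgroup.subset_closure ⟨i, rfl⟩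
    refine ⟨hi, ?_, sg_sE hC i⟩
    apply dl_eq
    rw [sE_tr]
    abel

end Pool.Agent.WHC.H6
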